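import Pool.Agent.Q269.GJ.StC

/-! Project GJ (helper269), job CNJ (helper52). -/

set_option autoImplicit false
set_option linter.all false

open scoped Classical
open Finset Polynomial

namespace Pool.Agent.Q52.GJ

open Pool.Agent.Q269.GR (F2 cf IsRt hv own Dn pr xi Pfam sy)
open Pool.Agent.Q269.GJ
open Pool.Agent.Y164.PS (L sg L_comm L_neg_left)

section lin

variable {F : Type} [Field F] [Algebra F2 F] {n : ℕ}

theorem charF : CharP F 2 := charP_of_injective_algebraMap (algebraMap F2 F).injective 2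

theorem cf_sq (x : F2) : (cf x : F) ^ 2 = cf x := by
  have h : ∀ x : F2, x = 0 ∨ x = 1 := by decide
  rcases h x with rfl | rfl
  · simp [cf]
  · simp [cf]

theorem lap_dot {x : Fin n → Fin n → F2} (hx : Sy x) (v w : Fin n → F) :
    ∑ l, v l * lap x w l = ∑ l, lap x v l * w l := by
  have e1 : ∑ l, v l * lap x w l = ∑ l, ∑ l', cf (x l l') * (v l * w l) + ∑ l, ∑ l', cf (x l l') * (v l * w l') := by
    rw [← sum_add_distrib]
    refine sum_congr rfl fun l _ => ?_
    rw [lap, mul_sum, ← sum_add_distrib]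
    refine sum_congr rfl fun l' _ => ?_
    ring
  have e2 : ∑ l, lap x v l * w l = ∑ l, ∑ l', cf (x l l') * (v l * w l) + ∑ l, ∑ l', cf (x l l') * (v l' * w l) := by
    rw [← sum_add_distrib]
    refine sum_congr rfl fun l _ => ?_
    rw [lap, sum_mul, ← sum_add_distrib]
    refine sum_congr rfl fun l' _ => ?_
    ring
  rw [e1, e2]
  congr 1
  rw [sum_comm]
  refine sum_congr rfl fun l _ => sum_congr rfl fun l' _ => ?_
  rw [hx l' l]

theorem lap_sum {x : Fin n → Fin n → F2} (hx : Sy x) (w : Fin n → F) : ∑ l, lap x w l = 0 := by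
  have := charF (F := F)
  have e1 : ∑ l, lap x w l = ∑ l, ∑ l', cf (x l l') * w l + ∑ l, ∑ l', cf (x l l') * w l' := by
    rw [← sum_add_distrib]
    refine sum_congr rfl fun l _ => ?_
    rw [lap, ← sum_add_distrib]
    refine sum_congr rfl fun l' _ => ?_
    ring
  have e2 : ∑ l, ∑ l', cf (x l l') * w l' = ∑ l, ∑ l', (cf (x l l') : F) * w l := by
    rw [sum_comm]
    refine sum_congr rfl fun l _ => sum_congr rfl fun l' _ => ?_
    rw [hx l' l]
  rw [e1, e2]
  exact CharTwo.add_self_eq_zero _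

variable {J : Type} [Fintype J]

theorem eqn_apply (M : J → J → F) (dd : J → F) (x : J → Fin n → Fin n → F2) (w : J → W0 n F) (i : J)
    (l : Fin n) : eqn M dd x w i l = ∑ j, (if j = i then (0 : F) else M i j) * (w j).1 l +
      dd i * (w i).1 l + lap (x i) (w i).1 l := by
  simp only [eqn, Pi.add_apply, Finset.sum_apply, Pi.smul_apply, smul_eq_mul]

theorem eqn_add (M : J → J → F) (dd : J → F) (x : J → Fin n → Fin n → F2) (w w' : J → W0 n F) (i : J) :
    eqn M dd x (w + w') i = eqn M dd x w i + eqn M dd x w' i := by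
  simp only [eqn, Pi.add_apply, Submodule.coe_add, smul_add, sum_add_distrib, lap_add]
  abel

theorem eqn_smul (M : J → J → F) (dd : J → F) (x : J → Fin n → Fin n → F2) (t : F) (w : J → W0 n F) (i : J) :
    eqn M dd x (t • w) i = t • eqn M dd x w i := by
  simp only [eqn, Pi.smul_apply, Submodule.coe_smul, smul_add, Finset.smul_sum, lap_smul]
  congr 1
  congr 1
  · exact sum_congr rfl fun j _ => smul_comm _ _ _
  · exact smul_comm _ _ _

theorem eqn_sum (M : J → J → F) (dd : J → F) (x : J → Fin n → Fin n → F2) (hx : ∀ i, Sy (x i))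
    (w : J → W0 n F) (i : J) : ∑ l, eqn M dd x w i l = 0 := by
  simp only [eqn_apply, sum_add_distrib]
  rw [lap_sum (hx i), sum_comm]
  simp only [← mul_sum, W0_sum, mul_zero, sum_const_zero, add_zero]

/-- the system as a linear map -/
noncomputable def AM (M : J → J → F) (dd : J → F) (x : J → Fin n → Fin n → F2) (hx : ∀ i, Sy (x i)) :
    (J → W0 n F) →ₗ[F] (J → W0 n F) where
  toFun w i := ⟨eqn M dd x w i, eqn_sum M dd x hx w i⟩
  map_add' w w' := by
    funext i
    exact Subtype.ext (eqn_add M dd x w w' i)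
  map_smul' t w := by
    funext i
    exact Subtype.ext (eqn_smul M dd x t w i)

theorem pairing (M M' : J → J → F) (dd : J → F) (x : J → Fin n → Fin n → F2) (hx : ∀ i, Sy (x i))
    (hM : ∀ i j, i ≠ j → M' i j = M j i) (v w : J → W0 n F) :
    ∑ i, ∑ l, (v i).1 l * eqn M dd x w i l = ∑ i, ∑ l, eqn M' dd x v i l * (w i).1 l := by
  simp only [eqn_apply]
  have e1 : ∀ i, ∑ l, (v i).1 l * (∑ j, (if j = i then (0 : F) else M i j) * (w j).1 l +
      dd i * (w i).1 l + lap (x i) (w i).1 l) = (∑ j, (if j = i then (0 : F) else M i j) *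
        ∑ l, (v i).1 l * (w j).1 l) + dd i * (∑ l, (v i).1 l * (w i).1 l) +
        ∑ l, (v i).1 l * lap (x i) (w i).1 l := by
    intro i
    simp only [mul_add, sum_add_distrib, mul_sum]
    rw [sum_comm]
    congr 1
    congr 1
    · refine sum_congr rfl fun j _ => sum_congr rfl fun l _ => ?_
      ring
    · refine sum_congr rfl fun l _ => ?_
      ring
  have e2 : ∀ i, ∑ l, (∑ j, (if j = i then (0 : F) else M' i j) * (v j).1 l +
      dd i * (v i).1 l + lap (x i) (v i).1 l) * (w i).1 l = (∑ j, (if j = i then (0 : F) else M' i j) *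
        ∑ l, (v j).1 l * (w i).1 l) + dd i * (∑ l, (v i).1 l * (w i).1 l) +
        ∑ l, lap (x i) (v i).1 l * (w i).1 l := by
    intro i
    simp only [add_mul, sum_add_distrib, mul_sum, sum_mul]
    rw [sum_comm]
    congr 1
    congr 1
    · refine sum_congr rfl fun j _ => sum_congr rfl fun l _ => ?_
      ring
    · refine sum_congr rfl fun l _ => ?_
      ring
  rw [sum_congr rfl fun i _ => e1 i, sum_congr rfl fun i _ => e2 i]
  simp only [sum_add_distrib]
  congr 1
  · congr 1
    rw [sum_comm]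
    refine sum_congr rfl fun i _ => sum_congr rfl fun j _ => ?_
    by_cases h : i = j
    · rw [if_pos h, if_pos h.symm]
    · rw [if_neg h, if_neg (Ne.symm h), hM i j h]
  · exact sum_congr rfl fun i _ => lap_dot (hx i) _ _

theorem kn_inv [Fintype F] (hn : Odd n) (M M' : J → J → F) (dd : J → F) (x : J → Fin n → Fin n → F2)
    (hx : ∀ i, Sy (x i)) (hM : ∀ i j, i ≠ j → M' i j = M j i) (h : Kn M dd x = ⊥) : Kn M' dd x = ⊥ := by
  have := charF (F := F)
  have hinj : Function.Injective (AM M dd x hx) := by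
    rw [injective_iff_map_eq_zero]
    intro w hw
    have : w ∈ Kn M dd x := fun i => congrArg Subtype.val (congrFun hw i)
    rw [h] at this
    exact (Submodule.mem_bot F).1 this
  have hsurj : Function.Surjective (AM M dd x hx) := LinearMap.injective_iff_surjective.1 hinj
  rw [Submodule.eq_bot_iff]
  intro v hv
  have hz : ∀ w' : J → W0 n F, ∑ i, ∑ l, (v i).1 l * (w' i).1 l = 0 := by
    intro w'
    obtain ⟨w, rfl⟩ := hsurj w'
    have e := pairing M M' dd x hx hM v w
    change ∑ i, ∑ l, (v i).1 l * eqn M dd x w i l = 0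
    rw [e]
    refine sum_eq_zero fun i _ => sum_eq_zero fun l _ => ?_
    have := hv i
    rw [this]
    simp
  funext i
  apply Subtype.ext
  have h1 : ∀ u : W0 n F, ∑ l, (v i).1 l * u.1 l = 0 := by
    intro u
    have e := hz (Pi.single i u)
    rw [sum_eq_single i] at e
    · simpa using e
    · intro j _ hj
      rw [Pi.single_eq_of_ne hj]
      simp
    · simp
  have h2 : ∀ l l' : Fin n, (v i).1 l = (v i).1 l' := by
    intro l l'
    by_cases hl : l = l'
    · rw [hl]
    have hu : (fun y : Fin n => (if y = l then (1 : F) else 0) + if y = l' then 1 else 0) ∈ W0 n F := by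
      change ∑ y, ((if y = l then (1 : F) else 0) + if y = l' then 1 else 0) = 0
      rw [sum_add_distrib]
      simp [CharTwo.add_self_eq_zero]
    have e := h1 ⟨_, hu⟩
    simp only [mul_add, sum_add_distrib, mul_ite, mul_one, mul_zero, sum_ite_eq', mem_univ, if_true] at e
    exact CharTwo.add_eq_zero.1 e
  funext l
  have h3 := W0_sum (v i)
  rw [sum_congr rfl fun l' _ => h2 l' l, sum_const, card_univ, Fintype.card_fin, nsmul_eq_mul] at h3
  obtain ⟨s, rfl⟩ := hn
  have h4 : ((2 * s + 1 : ℕ) : F) = 1 := by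
    push_cast
    rw [CharTwo.two_eq_zero, zero_mul, zero_add]
  rw [h4, one_mul] at h3
  exact h3

theorem kn_frob [Fintype F] (M M' : J → J → F) (dd dd' : J → F) (x : J → Fin n → Fin n → F2)
    (hM : ∀ i j, i ≠ j → M' i j = M i j ^ 2) (hd : ∀ i, dd' i = dd i ^ 2)
    (h : Kn M dd x = ⊥) : Kn M' dd' x = ⊥ := by
  have := charF (F := F)
  have hfi : Function.Injective (frobenius F 2) := frobenius_inj F 2
  have hfs : Function.Surjective (frobenius F 2) := Finite.surjective_of_injective hfi
  rw [Submodule.eq_bot_iff]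
  intro w hw
  choose g hg using hfs
  have hg2 : ∀ y, g y ^ 2 = y := by
    intro y
    have := hg y
    rwa [frobenius_def] at this
  have hv0 : ∀ i, (fun l => g ((w i).1 l)) ∈ W0 n F := by
    intro i
    change ∑ l, g ((w i).1 l) = 0
    apply hfi
    rw [map_sum, map_zero]
    simp only [hg]
    exact W0_sum (w i)
  set v : J → W0 n F := fun i => ⟨fun l => g ((w i).1 l), hv0 i⟩ with hvdef
  have hvK : v ∈ Kn M dd x := by
    intro i
    funext l
    apply hfi
    rw [eqn_apply]
    have hw' := congrFun (hw i) l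
    rw [eqn_apply] at hw'
    simp only [lap] at hw' ⊢
    simp only [map_add, map_sum, map_mul, Pi.zero_apply, map_zero]
    rw [Pi.zero_apply] at hw'
    have e0 : ∀ i l, frobenius F 2 ((v i).1 l) = (w i).1 l := fun i l => hg _
    simp only [e0]
    refine Eq.trans ?_ hw'
    congr 1
    · congr 1
      · refine sum_congr rfl fun j _ => ?_
        by_cases hji : j = i
        · simp only [hji, if_true, map_zero]
        · simp only [if_neg hji, hM i j (Ne.symm hji), frobenius_def]
      · rw [hd, frobenius_def]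
    · refine sum_congr rfl fun l' _ => ?_
      rw [frobenius_def, cf_sq]
  rw [h] at hvK
  have hv1 : v = 0 := (Submodule.mem_bot F).1 hvK
  funext i
  apply Subtype.ext
  funext l
  have e1 : g ((w i).1 l) = 0 := congrFun (congrArg Subtype.val (congrFun hv1 i)) l
  have e2 := hg2 ((w i).1 l)
  rw [e1] at e2
  rw [← e2]
  simp

end lin

section sym

variable {F : Type} [Field F] [Algebra F2 F]

theorem hv_sq {k : Type} [Field k] [Fintype k] (r : ℕ) (ξ : F) (P P' : k[X]) :
    hv r (ξ ^ 2) P P' = hv r ξ P P' ^ 2 := by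
  have := charF (F := F)
  have h1 : hv r ξ P P' ^ 2 = frobenius F 2 (hv r ξ P P') := by rw [frobenius_def]
  rw [h1]
  unfold hv
  rw [map_sum]
  refine sum_congr rfl fun c _ => ?_
  rw [map_mul, frobenius_def, frobenius_def, cf_sq, ← pow_mul, ← pow_mul, mul_comm 2 c]

theorem own_sq {k : Type} [Field k] [Fintype k] (r : ℕ) (ξ : F) (P : k[X]) :
    own r (ξ ^ 2) P = own r ξ P ^ 2 := by
  have := charF (F := F)
  have h1 : own r ξ P ^ 2 = frobenius F 2 (own r ξ P) := by rw [frobenius_def]
  rw [h1]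
  unfold own
  rw [map_sum]
  refine sum_congr rfl fun c _ => ?_
  rw [map_mul, map_add, map_one, frobenius_def, frobenius_def, cf_sq, ← pow_mul, ← pow_mul, mul_comm 2 c]

theorem own_inv {k : Type} [Field k] [Fintype k] {r : ℕ} (hr : 0 < r) {ξ : F} (hξ : ξ ^ r = 1)
    {P : k[X]} (hsy : ∀ c < r, 0 < c → sy r P P c = sy r P P (r - c)) :
    own r ξ⁻¹ P = own r ξ P := by
  have := charF (F := F)
  have hξ0 : ξ ≠ 0 := by
    rintro rfl
    rw [zero_pow hr.ne'] at hξ
    exact zero_ne_one hξ
  unfold own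
  have hzero : (1 : F) + 1 = 0 := CharTwo.add_self_eq_zero 1
  obtain ⟨s, rfl⟩ : ∃ s, r = s + 1 := ⟨r - 1, by omega⟩
  rw [sum_range_succ', sum_range_succ']
  simp only [pow_zero, hzero, mul_zero, add_zero]
  rw [← sum_range_reflect]
  refine sum_congr rfl fun c hc => ?_
  rw [mem_range] at hc
  have e1 : s - 1 - c + 1 = s + 1 - (c + 1) := by omega
  rw [e1, ← hsy (c + 1) (by omega) (by omega)]
  congr 2
  rw [inv_pow]
  apply inv_eq_of_mul_eq_one_right
  rw [← pow_add]
  have e2 : s + 1 - (c + 1) + (c + 1) = s + 1 := by omega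
  rw [e2, hξ]

end sym

theorem t_CNJ (h1 : Pool.Agent.Q269.GR.S_SYP) (h2 : Pool.Agent.Q269.GR.S_UNR)
    (h3 : Pool.Agent.Q269.GR.S_PRD) : S_CNJ := by
  intro k _ _ hk hm Δ hΔ n hn a m D hD r F _ _ _ ξ hξ hK
  obtain ⟨p1, p2, p3, p4, p5, p6⟩ := h3 k Δ hΔ
  have hfam := p3 m D hD
  have hr0 : 0 < r := by have := hξ.lt; omega
  have hξr : ξ ^ r = 1 := by rw [← hξ.ord]; exact pow_orderOf_eq_one ξ
  unfold KD KF at hK ⊢
  constructor
  · refine kn_frob _ _ _ _ _ ?_ ?_ hK
    · intro i j _
      exact hv_sq r ξ _ _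
    · intro i
      have := charF (F := F)
      simp only []
      rw [own_sq, CharTwo.add_sq, cf_sq]
  · have hsy : ∀ i : {i : {P : k[X] // P ∈ pr D} // r ∣ (i.1).natDegree}, own r ξ⁻¹ (i.1 : k[X]) =
        own r ξ (i.1 : k[X]) := by
      intro i
      refine own_inv hr0 hξr fun c hc hc0 => ?_
      exact (h1 k hk hm (i.1 : k[X]) (i.1 : k[X]) r (hfam.mon i.1) (hfam.irr i.1) (hfam.mon i.1)
        (hfam.irr i.1) hr0 i.2 i.2).2.2.2.1 c hc hc0
    have e : (fun i : {i : {P : k[X] // P ∈ pr D} // r ∣ (i.1).natDegree} =>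
        own r ξ⁻¹ (i.1 : k[X]) + cf (∑ j : {P : k[X] // P ∈ pr D}, if j = i.1 then 0 else
          L (j : k[X]) (i.1 : k[X]))) =
        fun i => own r ξ (i.1 : k[X]) + cf (∑ j : {P : k[X] // P ∈ pr D}, if j = i.1 then 0 else
          L (j : k[X]) (i.1 : k[X])) := by
      funext i
      rw [hsy i]
    simp only [] at hK ⊢
    rw [e]
    refine kn_inv hn _ _ _ _ ?_ ?_ hK
    · intro i l l'
      have hL := L_neg_left hk hm (f := a l - a l') (hfam.mon i.1) (hfam.irr i.1)
      unfold xb
      rw [← hL, neg_sub]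
    · intro i j hij
      have hne : (j.1 : k[X]) ≠ (i.1 : k[X]) := fun h => hij (Subtype.ext (Subtype.ext h)).symm
      exact ((h1 k hk hm (j.1 : k[X]) (i.1 : k[X]) r (hfam.mon j.1) (hfam.irr j.1) (hfam.mon i.1)
        (hfam.irr i.1) hr0 j.2 i.2).2.2.2.2.2 hne F ξ hξr).symm

end Pool.Agent.Q52.GJ
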