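import Mathlib

/-! Project GJ (helper269), general facts on minimal polynomials for the job RPS (helper52). -/

set_option autoImplicit false
set_option linter.all false

open scoped Classical
open Finset Polynomial

namespace Pool.Agent.Q52.GJ

section mip

variable {A : Type} [Field A] {K K' : Type} [Field K] [Field K'] [Algebra A K] [Algebra A K']

theorem aeval_inv {x : K} (hx : x ≠ 0) (f : A[X]) : aeval x⁻¹ f = 0 ↔ aeval x f.reverse = 0 := by
  letI : Invertible x⁻¹ := invertibleOfNonzero (inv_ne_zero hx)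
  have := eval₂_reverse_eq_zero_iff (algebraMap A K) x⁻¹ f
  rw [invOf_eq_inv, inv_inv] at this
  rw [aeval_def, aeval_def]
  exact this.symm

theorem minpoly_inv {x : K} {y : K'} (hx : x ≠ 0) (hy : y ≠ 0) (ix : IsIntegral A x⁻¹) (iy : IsIntegral A y⁻¹)
    (h : minpoly A x = minpoly A y) : minpoly A x⁻¹ = minpoly A y⁻¹ := by
  have key : ∀ f : A[X], aeval x⁻¹ f = 0 ↔ aeval y⁻¹ f = 0 := by
    intro f
    rw [aeval_inv hx, aeval_inv hy, ← minpoly.dvd_iff, ← minpoly.dvd_iff, h]
  refine eq_of_monic_of_associated (minpoly.monic ix) (minpoly.monic iy) (associated_of_dvd_dvd ?_ ?_)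
  · rw [minpoly.dvd_iff, key]
    exact minpoly.aeval A _
  · rw [minpoly.dvd_iff, ← key]
    exact minpoly.aeval A _

theorem minpoly_ord {x : K} {y : K'} (h : minpoly A x = minpoly A y) : orderOf x = orderOf y := by
  have key : ∀ n : ℕ, x ^ n = 1 ↔ y ^ n = 1 := by
    intro n
    have e1 : ∀ {L : Type} [Field L] [Algebra A L] (z : L), z ^ n = 1 ↔ aeval z (X ^ n - 1 : A[X]) = 0 := by
      intro L _ _ z
      rw [map_sub, map_pow, aeval_X, map_one, sub_eq_zero]
    rw [e1, e1, ← minpoly.dvd_iff, ← minpoly.dvd_iff, h]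
  exact Nat.dvd_antisymm (orderOf_dvd_of_pow_eq_one ((key _).2 (pow_orderOf_eq_one y)))
    (orderOf_dvd_of_pow_eq_one ((key _).1 (pow_orderOf_eq_one x)))

theorem conj_of_minpoly [Fintype K] [Algebra (ZMod 2) K] {x y : K}
    (h : minpoly (ZMod 2) x = minpoly (ZMod 2) y) : ∃ i : ℕ, x = y ^ 2 ^ i := by
  obtain ⟨g, hg⟩ := (Normal.minpoly_eq_iff_mem_orbit (F := ZMod 2) K).1 h
  obtain ⟨⟨i, hi⟩, rfl⟩ := (FiniteField.bijective_frobeniusAlgEquivOfAlgebraic_pow (ZMod 2) K).2 g
  refine ⟨i, ?_⟩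
  rw [← hg]
  change ((FiniteField.frobeniusAlgEquivOfAlgebraic (ZMod 2) K) ^ i) y = _
  clear hi hg
  induction i with
  | zero => simp
  | succ i ih =>
    rw [pow_succ', AlgEquiv.mul_apply, ih, FiniteField.coe_frobeniusAlgEquivOfAlgebraic, ZMod.card,
      pow_succ, pow_mul]

end mip

end Pool.Agent.Q52.GJ
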