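import Pool.Agent.Q269.GJ.StE
import Pool.Agent.Q52.GJ.Mip

/-! Project GJ (helper269), job RPS (helper52). -/

set_option autoImplicit false
set_option linter.all false

open scoped Classical
open Finset Polynomial

namespace Pool.Agent.Q52.GJ

open Pool.Agent.Q269.GR (F2 IsRt Dn pr xi Fr)
open Pool.Agent.Q269.GJ
open Pool.Agent.Y164.HG (Geo Del)

/-- the unordered pair of the minimal polynomials of the root of unity and of its inverse -/
noncomputable def gp (p : ℕ × ℕ) : Sym2 F2[X] :=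
  s(minpoly F2 (xi p.1 ^ p.2), minpoly F2 (xi p.1 ^ p.2)⁻¹)

/-- representatives for the fibres of a map -/
theorem ex_rep {A B : Type} [Nonempty A] (U : Finset A) (g : A → B) : ∃ R ⊆ U, (∀ p ∈ R, ∀ p' ∈ R, g p = g p' → p = p') ∧
    ∀ p ∈ U, ∃ p' ∈ R, g p' = g p := by
  classical
  have hc : ∀ z ∈ U.image g, ∃ p ∈ U, g p = z := fun z hz => by
    obtain ⟨p, hp, h⟩ := mem_image.1 hz
    exact ⟨p, hp, h⟩
  choose! f hf1 hf2 using hc
  refine ⟨(U.image g).image f, ?_, ?_, ?_⟩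
  · intro p hp
    obtain ⟨z, hz, rfl⟩ := mem_image.1 hp
    exact hf1 z hz
  · intro p hp p' hp' h
    obtain ⟨z, hz, rfl⟩ := mem_image.1 hp
    obtain ⟨z', hz', rfl⟩ := mem_image.1 hp'
    rw [hf2 z hz, hf2 z' hz'] at h
    rw [h]
  · intro p hp
    have hz : g p ∈ U.image g := mem_image_of_mem g hp
    exact ⟨f (g p), mem_image_of_mem f hz, hf2 _ hz⟩

theorem isRt_pow (hX : Pool.Agent.Q269.GR.S_XIR) {r u : ℕ} (hr : Odd r) (h1 : 1 < r) (hu : Nat.Coprime u r) :
    IsRt r (xi r ^ u) := by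
  have h := hX r hr h1
  refine ⟨hr, h1, ?_, h.card⟩
  rw [Nat.Coprime.orderOf_pow, h.ord]
  rw [h.ord]
  exact hu.symm

theorem isRt_sq {r : ℕ} {F : Type} [Field F] [Fintype F] [Algebra F2 F] {ξ : F} (h : IsRt r ξ) :
    IsRt r (ξ ^ 2) := by
  refine ⟨h.odd, h.lt, ?_, h.card⟩
  rw [Nat.Coprime.orderOf_pow, h.ord]
  rw [h.ord]
  exact (Nat.coprime_two_right.2 h.odd)

theorem isRt_inv {r : ℕ} {F : Type} [Field F] [Fintype F] [Algebra F2 F] {ξ : F} (h : IsRt r ξ) :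
    IsRt r ξ⁻¹ := by
  refine ⟨h.odd, h.lt, ?_, h.card⟩
  have h0 : ξ ≠ 0 := by
    rintro rfl
    have h1 := pow_orderOf_eq_one (0 : F)
    rw [h.ord, zero_pow (by have := h.lt; omega)] at h1
    exact zero_ne_one h1
  have key : ∀ n : ℕ, ξ⁻¹ ^ n = 1 ↔ ξ ^ n = 1 := by
    intro n
    rw [inv_pow, inv_eq_one]
  rw [← h.ord]
  exact Nat.dvd_antisymm (orderOf_dvd_of_pow_eq_one ((key _).2 (pow_orderOf_eq_one _)))
    (orderOf_dvd_of_pow_eq_one ((key _).1 (pow_orderOf_eq_one _)))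

theorem isRt_ne {r : ℕ} {F : Type} [Field F] [Fintype F] [Algebra F2 F] {ξ : F} (h : IsRt r ξ) : ξ ≠ 0 := by
  rintro rfl
  have h1 := pow_orderOf_eq_one (0 : F)
  rw [h.ord, zero_pow (by have := h.lt; omega)] at h1
  exact zero_ne_one h1

theorem int_fr (r : ℕ) (x : Fr r) : IsIntegral F2 x := Algebra.IsIntegral.isIntegral x

theorem t_RPS (h1 : S_CNJ) (h2 : Pool.Agent.Q269.GR.S_XIR) : S_RPS := by
  intro R y
  set U : Finset (ℕ × ℕ) := ((range (y + 1)) ×ˢ (range (y + 1))).filter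
    (fun p => OO R p.1 ∧ p.2 < p.1 ∧ Nat.Coprime p.2 p.1) with hU
  obtain ⟨Rp, hsub, hinj, hcov⟩ := ex_rep U gp
  have hmemU : ∀ p ∈ U, p.1 ≤ y ∧ OO R p.1 ∧ p.2 < p.1 ∧ Nat.Coprime p.2 p.1 := by
    intro p hp
    rw [hU, mem_filter, mem_product, mem_range, mem_range] at hp
    exact ⟨by omega, hp.2⟩
  have hrt : ∀ p ∈ U, IsRt p.1 (xi p.1 ^ p.2) := by
    intro p hp
    obtain ⟨a1, a2, a3, a4⟩ := hmemU p hp
    exact isRt_pow h2 a2.1 a2.2.1 a4
  refine ⟨Rp, ⟨?_, ?_⟩, ?_, ?_, ?_⟩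
  · intro p hp
    obtain ⟨a1, a2, a3, a4⟩ := hmemU p (hsub hp)
    exact ⟨a2.1, a2.2.1, a4⟩
  · intro p hp p' hp' hne
    have q1 := hrt p (hsub hp)
    have q2 := hrt p' (hsub hp')
    constructor
    · intro h
      apply hne
      apply hinj p hp p' hp'
      unfold gp
      rw [minpoly_inv (isRt_ne q1) (isRt_ne q2) (int_fr _ _) (int_fr _ _) h, h]
    · intro h
      apply hne
      apply hinj p hp p' hp'
      unfold gp
      have h' := minpoly_inv (isRt_ne q1) (inv_ne_zero (isRt_ne q2)) (int_fr _ _)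
        (by rw [inv_inv]; exact int_fr _ _) h
      rw [inv_inv] at h'
      rw [h, h']
      exact Sym2.eq_swap
  · intro p hp
    obtain ⟨a1, a2, a3, a4⟩ := hmemU p (hsub hp)
    exact ⟨a2, a1⟩
  · intro r
    have : (Rp.filter fun p => p.1 = r) ⊆ (range r).image (fun u => (r, u)) := by
      intro p hp
      rw [mem_filter] at hp
      obtain ⟨a1, a2, a3, a4⟩ := hmemU p (hsub hp.1)
      rw [mem_image]
      refine ⟨p.2, ?_, ?_⟩
      · rw [mem_range, ← hp.2]
        exact a3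
      · rw [← hp.2]
    refine (card_le_card this).trans (card_image_le.trans ?_)
    rw [card_range]
  · intro k _ _ n a N H m D hD hK r hr hry u hu
    have hx0 := h2 r hr.1 hr.2.1
    have e1 : xi r ^ u = xi r ^ (u % r) := by
      conv_lhs => rw [← pow_mod_orderOf, hx0.ord]
    have hu' : Nat.Coprime (u % r) r := by
      have := Nat.gcd_rec r u
      rw [Nat.Coprime, ← this, Nat.gcd_comm]
      exact hu
    have hlt : u % r < r := Nat.mod_lt _ (by have := hr.2.1; omega)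
    have hmem : (r, u % r) ∈ U := by
      rw [hU, mem_filter, mem_product, mem_range, mem_range]
      refine ⟨⟨?_, ?_⟩, hr, hlt, hu'⟩
      · simp only []; omega
      · simp only []; omega
    obtain ⟨⟨r', v⟩, hp, hgp⟩ := hcov _ hmem
    have hxr := hrt _ hmem
    have hzr := hrt _ (hsub hp)
    have hKp := hK _ hp
    rw [e1]
    generalize u % r = w at *
    unfold gp at hgp
    rw [Sym2.eq_iff] at hgp
    simp only [] at hgp hxr hzr hKp
    have hrr : r' = r := by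
      have h3 : orderOf (xi r' ^ v) = orderOf (xi r ^ w) := by
        rcases hgp with ⟨h3, _⟩ | ⟨h3, _⟩
        · exact minpoly_ord h3
        · rw [minpoly_ord h3, (isRt_inv hxr).ord, hxr.ord]
      rw [hxr.ord, hzr.ord] at h3
      exact h3
    subst hrr
    have step : ∀ (i : ℕ) (ζ : Fr r'), IsRt r' ζ → KD r' ζ a D = ⊥ → KD r' (ζ ^ 2 ^ i) a D = ⊥ ∧
        IsRt r' (ζ ^ 2 ^ i) := by
      intro i ζ hζ hKζ
      induction i with
      | zero => simpa using ⟨hKζ, hζ⟩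
      | succ i ih =>
        have e : ζ ^ 2 ^ (i + 1) = (ζ ^ 2 ^ i) ^ 2 := by rw [pow_succ, pow_mul]
        rw [e]
        exact ⟨(h1 k H.hk H.hm (Del a) H.del_ne n H.hn a m D hD r' (Fr r') _ ih.2 ih.1).1, isRt_sq ih.2⟩
    rcases hgp with ⟨h3, _⟩ | ⟨h3, h4⟩
    · obtain ⟨i, hi⟩ := conj_of_minpoly h3.symm
      rw [hi]
      exact (step i _ hzr hKp).1
    · have hinvK := (h1 k H.hk H.hm (Del a) H.del_ne n H.hn a m D hD r' (Fr r') _ hzr hKp).2
      obtain ⟨i, hi⟩ := conj_of_minpoly h4.symm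
      rw [hi]
      exact (step i _ (isRt_inv hzr) hinvK).1

end Pool.Agent.Q52.GJ
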